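import Mathlib
import Pool.Agent.Work.MP_fd33cb_co.Main

set_option autoImplicit false

open Finset Polynomial Pool.Agent.Work.MP_fd33cb_co

namespace Pool.Agent.Results.MP_fd33cb_co.LinearDeviation

lemma exists_mode {n : ℕ} (G : SimpleGraph (Fin n)) : ∃ m, IsMode G m := by
  obtain ⟨m, hm, hmax⟩ := Finset.exists_max_image (range (n + 1)) (domCount G) ⟨0, by simp⟩
  refine ⟨m, ?_, fun i => ?_⟩
  · rw [Fintype.card_fin]
    exact Nat.lt_succ_iff.1 (Finset.mem_range.1 hm)
  · by_cases hi : i ∈ range (n + 1)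
    · exact hmax i hi
    · have : domCount G i = 0 := by
        classical
        rw [domCount, Finset.card_eq_zero, Finset.filter_eq_empty_iff]
        rintro S _ ⟨h1, _⟩
        apply hi
        rw [Finset.mem_range, ← h1]
        have := Finset.card_le_univ S
        rw [Fintype.card_fin] at this
        omega
      omega

/-- Q1 fails for every large number `n` of vertices, and the maximal distance between a mode of
the domination polynomial and the average size of a dominating set grows linearly in `n`. -/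
theorem result :
    (∃ c : ℝ, 0 < c ∧ ∃ n₀ : ℕ, ∀ n ≥ n₀, ∃ G : SimpleGraph (Fin n),
      (∃ m, IsMode G m) ∧
      ∀ m, IsMode G m →
        (m : ℤ) ≠ ⌊avd G⌋ ∧ (m : ℤ) ≠ ⌈avd G⌉ ∧ c * n ≤ |(m : ℝ) - avd G|) ∧
    (∀ n : ℕ, ∀ G : SimpleGraph (Fin n), ∀ m, IsMode G m → |(m : ℝ) - avd G| ≤ n) := by
  refine ⟨?_, fun n G m hm => dev_le G m hm⟩
  obtain ⟨n₀, h⟩ := exists_graph
  have hQ : (0 : ℝ) < QQ := by
    have : 0 < QQ := by unfold QQ; positivity
    exact_mod_cast this
  refine ⟨32 / QQ, by positivity, max n₀ QQ, fun n hn => ?_⟩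
  obtain ⟨G, hG⟩ := h n (le_trans (le_max_left _ _) hn)
  have hnQ : (QQ : ℝ) ≤ n := by exact_mod_cast le_trans (le_max_right _ _) hn
  refine ⟨G, exists_mode G, fun m hm => ?_⟩
  have h1 := hG m hm
  have h2 : 1 < |(m : ℝ) - avd G| := by
    refine lt_of_lt_of_le ?_ h1
    rw [div_mul_eq_mul_div, lt_div_iff₀ hQ]
    linarith
  refine ⟨?_, ?_, h1⟩
  · intro he
    have h3 : (m : ℝ) = (⌊avd G⌋ : ℝ) := by exact_mod_cast he
    rw [h3] at h2
    have h4 := Int.floor_le (avd G)
    have h5 := Int.lt_floor_add_one (avd G)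
    rw [lt_abs] at h2
    rcases h2 with h2 | h2 <;> linarith
  · intro he
    have h3 : (m : ℝ) = (⌈avd G⌉ : ℝ) := by exact_mod_cast he
    rw [h3] at h2
    have h4 := Int.le_ceil (avd G)
    have h5 := Int.ceil_lt_add_one (avd G)
    rw [lt_abs] at h2
    rcases h2 with h2 | h2 <;> linarith

end Pool.Agent.Results.MP_fd33cb_co.LinearDeviation
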